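import Pool.Agent.Helper99.NQ.Defs

/-!
# NQ: the root, and the map from inputs to tables
-/

namespace Pool.Agent.Helper1.NQ

open Finset Pool.Agent.Helper19.NF Pool.Agent.Helper74.NW Pool.Agent.Helper99.NQ
open Pool.Agent.Helper74.NE (fine fine_apply)

/-- A set with more than the `q`-th part of all vectors spans. -/
theorem span_top {F V : Type} [Field F] [Fintype F] [AddCommGroup V] [Module F V] [Fintype V]
    (s : Finset V) (hs : Fintype.card V < s.card * Fintype.card F) :
    Submodule.span F (s : Set V) = ⊤ := by
  classical
  by_contra hne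
  obtain ⟨w, hw⟩ : ∃ w, w ∉ Submodule.span F (s : Set V) := by
    by_contra hc
    push Not at hc
    exact hne (Submodule.eq_top_iff'.2 hc)
  have hinj : Function.Injective (fun p : F × {x // x ∈ s} => p.1 • w + p.2.1) := by
    rintro ⟨a, x, hx⟩ ⟨a', x', hx'⟩ he
    simp only at he
    have h1 : (a - a') • w = x' - x := by
      rw [sub_smul, sub_eq_sub_iff_add_eq_add, he, add_comm]
    have h2 : (a - a') • w ∈ Submodule.span F (s : Set V) := by
      rw [h1]
      exact Submodule.sub_mem _ (Submodule.subset_span hx') (Submodule.subset_span hx)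
    have h3 : a - a' = 0 := by
      by_contra h4
      exact hw ((Submodule.smul_mem_iff _ h4).1 h2)
    have h5 : a = a' := sub_eq_zero.1 h3
    subst h5
    have h6 : x = x' := add_left_cancel he
    subst h6
    rfl
  have h1 := Fintype.card_le_of_injective _ hinj
  rw [Fintype.card_prod, Fintype.card_coe] at h1
  rw [mul_comm] at hs
  omega

section word

variable {D m : ℕ} {F B : Type} [Field F] [AddCommGroup B] [Module F B] [Fintype B]

theorem word_add (y z : Word D m B → F) : word (y + z) = word y + word z := by
  unfold word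
  rw [← Finset.sum_add_distrib]
  refine Finset.sum_congr rfl fun l _ => ?_
  rw [Pi.add_apply, add_smul]

theorem word_zero : word (0 : Word D m B → F) = 0 := by
  unfold word
  refine Finset.sum_eq_zero fun l _ => ?_
  rw [Pi.zero_apply, zero_smul]

theorem tab_add (I J : B × Word D m B → F) : tab (I + J) = tab I + tab J := by
  funext b
  unfold tab
  rw [Pi.add_apply, ← word_add]
  rfl

theorem word_single (w : Word D m B) : ∃ y : Word D m B → F, word y = w := by
  classical
  refine ⟨Pi.single w 1, ?_⟩
  unfold word
  rw [Finset.sum_eq_single w]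
  · rw [Pi.single_eq_same, one_smul]
  · intro l _ hl
    rw [Pi.single_eq_of_ne hl, zero_smul]
  · intro h
    exact absurd (Finset.mem_univ w) h

/-- If the symbols in `s` are enough, every word is obtained by using them only. -/
theorem word_onto [Fintype F] (s : Finset (Word D m B))
    (hs : Fintype.card (Word D m B) < s.card * Fintype.card F) (w : Word D m B) :
    ∃ y : Word D m B → F, (∀ l, l ∉ s → y l = 0) ∧ word y = w := by
  classical
  have h1 : w ∈ Submodule.span F (s : Set (Word D m B)) := by
    rw [span_top s hs]
    exact Submodule.mem_top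
  obtain ⟨f, hf, hfw⟩ := Submodule.mem_span_finset.1 h1
  refine ⟨f, fun l hl => ?_, ?_⟩
  · by_contra h2
    exact hl (hf (Function.mem_support.2 h2))
  · unfold word
    rw [← hfw]
    symm
    refine Finset.sum_subset (Finset.subset_univ _) fun l _ hl => ?_
    have h2 : f l = 0 := by
      by_contra h2
      exact hl (hf (Function.mem_support.2 h2))
    rw [h2, zero_smul]

end word

section net

variable {n D m S : ℕ} [NeZero m] {F B Z : Type} [Field F] [Fintype F] [AddCommGroup B] [Module F B] [Fintype B]

theorem root_full (P : NProg (B × Word D m B) F Z S) (g : Fin D → Equiv.Perm (Fin n)) (x0 : Fin n × Fin m → B)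
    (h R : ℕ) (c0 : Fin D × Fin m) (Acc : Z → B → Prop) (hAcc : ∀ z, ∃ y, ¬ Acc z y)
    (hP : ∀ I l z, P.Ends I l z → Acc z (res (fine g) x0 R c0 (tab I)))
    (hq : Fintype.card (Word D m B) < h * Fintype.card F) {I : B × Word D m B → F}
    (hcf : CF (fine g) x0 R (tab I)) {l : List (B × Word D m B)} {z : Z} (hl : P.Ends I l z) :
    full g x0 h R I (free l) = univ := by
  classical
  by_contra hne
  obtain ⟨u, hu⟩ : ∃ u, u ∉ full g x0 h R I (free l) := by
    by_contra hc
    push Not at hc
    exact hne (Finset.eq_univ_of_forall hc)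
  unfold full at hu
  rw [mem_filter, not_and] at hu
  have hu1 := hu (mem_univ u)
  push Not at hu1
  obtain ⟨t, ht⟩ := hu1
  set b : B := val (fine g) x0 (tab I) R (u, t) with hb
  set s : Finset (Word D m B) := univ.filter (fun l' => (b, l') ∈ free l) with hs
  have hcard : h ≤ s.card := by
    refine ht.trans (le_of_eq ?_)
    unfold gap
    rw [hs]
  have hs2 : Fintype.card (Word D m B) < s.card * Fintype.card F :=
    lt_of_lt_of_le hq (Nat.mul_le_mul_right _ hcard)
  obtain ⟨y, hy⟩ := hAcc z
  obtain ⟨f, hf1, hf2⟩ := word_onto (F := F) s hs2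
    (Function.update (0 : Word D m B) c0 (y - res (fine g) x0 R c0 (tab I)))
  let δ : B × Word D m B → F := fun x => if x.1 = b then f x.2 else 0
  have htabδ : ∀ b', tab δ b' = if b' = b then
      Function.update (0 : Word D m B) c0 (y - res (fine g) x0 R c0 (tab I)) else 0 := by
    intro b'
    change word (fun l' => δ (b', l')) = _
    by_cases hb' : b' = b
    · rw [if_pos hb', ← hf2]
      congr 1
      funext l'
      simp only [δ]
      rw [if_pos hb']
    · rw [if_neg hb', ← word_zero (F := F) (D := D) (m := m) (B := B)]
      congr 1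
      funext l'
      simp only [δ]
      rw [if_neg hb']
      rfl
  have hEnds : P.Ends (I + δ) l z := by
    obtain ⟨t', h1, h2⟩ := hl
    refine ⟨t', run_congr h1 ?_, h2⟩
    intro c hc
    rw [Pi.add_apply]
    have : δ c = 0 := by
      simp only [δ]
      split_ifs with hcb
      · apply hf1
        rw [hs, mem_filter, not_and]
        intro _ hfree
        unfold free at hfree
        rw [mem_filter] at hfree
        apply hfree.2
        rw [← hcb]
        exact hc
      · rfl
    rw [this, add_zero]
  have h3 := hP _ _ _ hEnds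
  rw [tab_add, res_add c0 hcf (tab δ) (fun b' hb' => by
    refine ⟨(u, t), ?_⟩
    by_contra h4
    rw [htabδ, if_neg h4] at hb'
    exact hb' rfl)] at h3
  have h5 : ∑ v, tab δ (val (fine g) x0 (tab I) R v) c0 = y - res (fine g) x0 R c0 (tab I) := by
    rw [Finset.sum_eq_single (u, t)]
    · rw [htabδ, if_pos hb.symm, Function.update_self]
    · intro v _ hv
      rw [htabδ, if_neg, Pi.zero_apply]
      intro h6
      exact hv (hcf R R v (u, t) le_rfl le_rfl h6).2
    · intro h6
      exact absurd (mem_univ _) h6
  rw [h5, add_sub_cancel] at h3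
  exact hy h3

end net

theorem card_tab {D m : ℕ} {F B : Type} [Field F] [Fintype F] [AddCommGroup B] [Module F B] [Fintype B]
    (p : (B → Word D m B) → Prop) :
    Nat.card {I : B × Word D m B → F // p (tab I)} * Nat.card (B → Word D m B) =
      Nat.card {J : B → Word D m B // p J} * Nat.card (B × Word D m B → F) := by
  classical
  have hsec : ∀ J : B → Word D m B, ∃ I : B × Word D m B → F, tab I = J := by
    intro J
    choose y hy using fun b => word_single (F := F) (J b)
    refine ⟨fun x => y x.1 x.2, ?_⟩
    funext b
    exact hy b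
  choose sec hsec using hsec
  let f : (B × Word D m B → F) →+ (B → Word D m B) := AddMonoidHom.mk' tab tab_add
  have hf : ∀ I, f I = tab I := fun _ => rfl
  have key : ∀ p : (B → Word D m B) → Prop, Nat.card {I : B × Word D m B → F // p (tab I)} =
      Nat.card {J : B → Word D m B // p J} * Nat.card f.ker := by
    intro p
    rw [← Nat.card_prod]
    refine Nat.card_congr
      { toFun := fun I => (⟨tab I.1, I.2⟩, ⟨I.1 - sec (tab I.1), ?_⟩)
        invFun := fun x => ⟨x.2.1 + sec x.1.1, ?_⟩
        left_inv := ?_
        right_inv := ?_ }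
    · rw [AddMonoidHom.mem_ker, map_sub, hf, hf, hsec, sub_self]
    · have h1 : tab (x.2.1 + sec x.1.1) = x.1.1 := by
        rw [tab_add, hsec, ← hf, AddMonoidHom.mem_ker.1 x.2.2, zero_add]
      rw [h1]
      exact x.1.2
    · intro I
      apply Subtype.ext
      simp
    · rintro ⟨⟨J, hJ⟩, ⟨k, hk⟩⟩
      have h1 : tab (k + sec J) = J := by
        rw [tab_add, hsec, ← hf, AddMonoidHom.mem_ker.1 hk, zero_add]
      refine Prod.ext (Subtype.ext h1) (Subtype.ext ?_)
      simp only [h1, add_sub_cancel_right]
  have h1 := key p
  have h2 := key (fun _ => True)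
  have h3 : Nat.card {I : B × Word D m B → F // True} = Nat.card (B × Word D m B → F) :=
    Nat.card_congr (Equiv.subtypeUnivEquiv fun _ => trivial)
  have h4 : Nat.card {J : B → Word D m B // True} = Nat.card (B → Word D m B) :=
    Nat.card_congr (Equiv.subtypeUnivEquiv fun _ => trivial)
  rw [h3, h4] at h2
  rw [h1, h2]
  ring

end Pool.Agent.Helper1.NQ
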